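import Pool.Agent.H20.LIM.Targets
import Mathlib.MeasureTheory.Topology
import Mathlib.Analysis.Convex.TotallyBounded

/-!
# COMP: the functions `log ‖h‖ / Λ` form a relatively compact set in `L^1` of a disc
-/

set_option autoImplicit false

open Complex MeasureTheory Set Filter Topology Metric

namespace Pool.Agent.H91.LIM

open Pool.Agent.H20.LIM Pool.Agent.H23.GLM Pool.Agent.H23.DZ

theorem compA_int (hLI : T_LI) (c : ℂ) (r0 : ℝ) (ζ : ℂ) :
    Integrable (fun z => Real.log ‖z - ζ‖) (volume.restrict (closedBall c r0)) := by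
  have h := hLI (fun z => z - ζ) (differentiable_id.sub_const ζ)
    ⟨ζ + 1, by simp⟩
  exact (h.integrableOn_isCompact (isCompact_closedBall c r0))

/-- translation estimate -/
theorem compA_shift (c : ℂ) (r0 r1 : ℝ) (ζ ζ' : ℂ) (hζ' : ζ' ∈ closedBall c r1) :
    ∫⁻ z in closedBall c r0, edist (Real.log ‖z - ζ‖) (Real.log ‖z - ζ'‖) ≤
      L1 (r0 + r1) (fun w => Real.log ‖w + (ζ' - ζ)‖ - Real.log ‖w‖) := by
  set G : ℂ → ENNReal := fun w => ‖Real.log ‖w + (ζ' - ζ)‖ - Real.log ‖w‖‖ₑ with hG
  have h1 : ∫⁻ z in closedBall c r0, edist (Real.log ‖z - ζ‖) (Real.log ‖z - ζ'‖) =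
      ∫⁻ z, (closedBall c r0).indicator (fun z => G (z - ζ')) z := by
    rw [lintegral_indicator isClosed_closedBall.measurableSet]
    refine lintegral_congr fun z => ?_
    rw [hG, edist_eq_enorm_sub]
    simp only
    rw [show z - ζ' + (ζ' - ζ) = z - ζ by ring]
  have h2 : L1 (r0 + r1) (fun w => Real.log ‖w + (ζ' - ζ)‖ - Real.log ‖w‖) =
      ∫⁻ w, (closedBall (0 : ℂ) (r0 + r1)).indicator G w := by
    unfold L1
    rw [lintegral_indicator isClosed_closedBall.measurableSet]
  rw [h1, h2, ← lintegral_sub_right_eq_self (fun w => (closedBall (0 : ℂ) (r0 + r1)).indicator G w)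
    ζ']
  refine lintegral_mono fun z => ?_
  by_cases hz : z ∈ closedBall c r0
  · have h3 : z - ζ' ∈ closedBall (0 : ℂ) (r0 + r1) := by
      rw [mem_closedBall, dist_zero_right]
      have h4 : ‖z - ζ'‖ ≤ dist z c + dist ζ' c := by
        rw [← dist_eq_norm]
        calc dist z ζ' ≤ dist z c + dist c ζ' := dist_triangle _ _ _
          _ = dist z c + dist ζ' c := by rw [dist_comm c ζ']
      linarith [mem_closedBall.1 hz, mem_closedBall.1 hζ']
    rw [indicator_of_mem hz, indicator_of_mem h3]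
  · rw [indicator_of_notMem hz]
    exact zero_le

theorem pf_comp (hFAC : T_FAC) (hHARM : T_HARM) (hTRA : T_TRA) (hLI : T_LI) : T_COMP := by
  intro c r0 r1 A hr0 hr01 hA
  obtain ⟨C, hC, hfac⟩ := hFAC r0 r1 A hr0 hr01 hA
  obtain ⟨KH, hKH, hharm⟩ := hHARM c r0 ((r0 + r1) / 2) C hr0 (by linarith)
  set l : ℂ → Lp ℝ 1 (volume.restrict (closedBall c r0)) := fun ζ => (compA_int hLI c r0 ζ).toL1 _ with hl
  -- continuity
  have hv : LocallyIntegrable (fun z : ℂ => Real.log ‖z‖) volume :=
    hLI (fun z => z) differentiable_id ⟨1, one_ne_zero⟩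
  have hcont : ContinuousOn l (closedBall c r1) := by
    rw [EMetric.continuousOn_iff]
    intro ζ hζ ε hε
    obtain ⟨δ, hδ, hδε⟩ : ∃ δ : ℝ, 0 < δ ∧ ENNReal.ofReal δ < ε := by
      rcases eq_or_ne ε ⊤ with h | h
      · exact ⟨1, one_pos, by rw [h]; exact ENNReal.ofReal_lt_top⟩
      · refine ⟨ε.toReal / 2, half_pos (ENNReal.toReal_pos hε.ne' h), ?_⟩
        rw [ENNReal.ofReal_lt_iff_lt_toReal (by positivity) h]
        exact half_lt_self (ENNReal.toReal_pos hε.ne' h)
    obtain ⟨η, hη, htra, -⟩ := hTRA _ hv (r0 + r1) δ hδ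
    refine ⟨ENNReal.ofReal η, ENNReal.ofReal_pos.2 hη, fun {ζ'} hζ' hd => ?_⟩
    rw [hl]
    simp only
    rw [Integrable.edist_toL1_toL1]
    refine lt_of_le_of_lt ((compA_shift c r0 r1 ζ' ζ hζ).trans (htra (ζ - ζ') ?_)) hδε
    rw [edist_dist, ENNReal.ofReal_lt_ofReal_iff hη] at hd
    rw [← dist_eq_norm, dist_comm]
    exact hd.le
  have hT : IsCompact (l '' closedBall c r1 ∪ {0}) :=
    ((isCompact_closedBall c r1).image_of_continuousOn hcont).union isCompact_singleton
  set T' : Set (Lp ℝ 1 (volume.restrict (closedBall c r0))) := closure (convexHull ℝ (l '' closedBall c r1 ∪ {0})) with hT'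
  have hT'c : IsCompact T' :=
    hT.totallyBounded.convexHull.closure.isCompact_of_isClosed isClosed_closure
  refine ⟨(fun p : ℝ × (Lp ℝ 1 (volume.restrict (closedBall c r0))) × (Lp ℝ 1 (volume.restrict (closedBall c r0))) => p.1 • p.2.1 + p.2.2) ''
    (Icc 0 C ×ˢ (T' ×ˢ KH)), ?_, ?_⟩
  · refine (isCompact_Icc.prod (hT'c.prod hKH)).image ?_
    fun_prop
  · intro h Λ hΛ han hub hlb
    obtain ⟨n, ζ, g, hn, hζ, hgd, hgb, hid⟩ := hfac c h Λ hΛ han hub hlb
    obtain ⟨y, hy, hyg⟩ := hharm g hgd hgb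
    have hΛ0 : (0 : ℝ) < Λ := by linarith
    -- the average of the logarithms
    obtain ⟨x, hx, hxs⟩ : ∃ x ∈ T', ((n : ℝ) / Λ) • x = (1 / Λ) • ∑ j, l (ζ j) := by
      rcases Nat.eq_zero_or_pos n with h0 | h0
      · subst h0
        refine ⟨0, subset_closure (subset_convexHull ℝ _ (Or.inr rfl)), ?_⟩
        simp
      · refine ⟨∑ j, (1 / (n : ℝ)) • l (ζ j), subset_closure ?_, ?_⟩
        · refine (convex_convexHull ℝ _).sum_mem (fun _ _ => by positivity) ?_ fun j _ =>
            subset_convexHull ℝ _ (Or.inl ⟨ζ j, hζ j, rfl⟩)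
          rw [Finset.sum_const, Finset.card_univ, Fintype.card_fin, nsmul_eq_mul]
          field_simp
        · rw [← Finset.smul_sum, smul_smul]
          congr 1
          have : (n : ℝ) ≠ 0 := by positivity
          field_simp
    refine ⟨((n : ℝ) / Λ) • x + y, ⟨((n : ℝ) / Λ, x, y), ⟨⟨by positivity, ?_⟩, hx, hy⟩, rfl⟩, ?_⟩
    · rw [div_le_iff₀ hΛ0]
      exact hn
    · rw [hxs]
      have h1 : ∀ᵐ z ∂(volume.restrict (closedBall c r0)), ((1 / Λ) • ∑ j, l (ζ j) : Lp ℝ 1 (volume.restrict (closedBall c r0))) z =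
          (1 / Λ) * ∑ j, Real.log ‖z - ζ j‖ := by
        have h2 : ∀ s : Finset (Fin n), ∀ᵐ z ∂(volume.restrict (closedBall c r0)), (∑ j ∈ s, l (ζ j) : Lp ℝ 1 (volume.restrict (closedBall c r0))) z =
            ∑ j ∈ s, Real.log ‖z - ζ j‖ := by
          intro s
          classical
          induction s using Finset.induction_on with
          | empty =>
            simp only [Finset.sum_empty]
            exact Lp.coeFn_zero _ _ _
          | insert a s ha ih =>
            rw [Finset.sum_insert ha]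
            filter_upwards [Lp.coeFn_add (l (ζ a)) (∑ j ∈ s, l (ζ j)), ih,
              Integrable.coeFn_toL1 (compA_int hLI c r0 (ζ a))] with z h3 h4 h5
            rw [h3, Pi.add_apply, h4, Finset.sum_insert ha]
            congr 1
        filter_upwards [Lp.coeFn_smul (1 / Λ) (∑ j, l (ζ j)), h2 Finset.univ] with z h3 h4
        rw [h3, Pi.smul_apply, h4, smul_eq_mul]
      have h0 : ∀ᵐ z ∂(volume.restrict (closedBall c r0)), h z ≠ 0 := by
        have hcod := han.preimage_zero_mem_codiscreteWithin (x := c)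
          (fun h0 => by
            rw [h0, norm_zero] at hlb
            exact absurd hlb (not_le.2 (Real.exp_pos _)))
          (mem_closedBall_self (by linarith))
          ⟨⟨c, mem_closedBall_self (by linarith)⟩, (convex_closedBall c r1).isPreconnected⟩
        have hae : ∀ᵐ z ∂(volume.restrict (closedBall c r1)), h z ≠ 0 := by
          have := ae_restrict_le_codiscreteWithin (μ := (volume : Measure ℂ))
            isClosed_closedBall.measurableSet hcod
          filter_upwards [this] with z hz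
          simpa using hz
        exact ae_restrict_of_ae_restrict_of_subset (closedBall_subset_closedBall hr01.le) hae
      have hmem : ∀ᵐ z ∂(volume.restrict (closedBall c r0)), z ∈ closedBall c r0 :=
        ae_restrict_mem isClosed_closedBall.measurableSet
      filter_upwards [Lp.coeFn_add ((1 / Λ) • ∑ j, l (ζ j)) y, h1, hyg, h0, hmem]
        with z h3 h4 h5 h6 h7
      rw [h3, Pi.add_apply, h4, h5, hid z h7 h6]
      ring

end Pool.Agent.H91.LIM
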