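import Pool.Agent.H20.LIM.Targets
import Pool.Agent.H51.DZ.F2
import Mathlib.MeasureTheory.Topology

/-!
# FEU: the functional equation in `L^1`
-/

set_option autoImplicit false

open Complex MeasureTheory Set Filter Topology Metric

namespace Pool.Agent.H91.LIM

open Pool.Agent.H20.LIM Pool.Agent.H23.GLM Pool.Agent.H23.DZ

theorem ae_ne_zero_of_an {f : ℂ → ℂ} {U : Set ℂ} (hU : MeasurableSet U) (hUc : volume Uᶜ = 0)
    (han : AnalyticOnNhd ℂ f U) (hconn : IsConnected U) {s : ℂ} (hs : s ∈ U) (h0 : f s ≠ 0) :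
    ∀ᵐ z : ℂ, f z ≠ 0 := by
  have hcod := han.preimage_zero_mem_codiscreteWithin h0 hs hconn
  have h1 : ∀ᵐ z ∂(volume.restrict U), f z ≠ 0 := by
    have := ae_restrict_le_codiscreteWithin (μ := (volume : Measure ℂ)) hU hcod
    filter_upwards [this] with z hz
    simpa using hz
  rw [ae_restrict_iff' hU] at h1
  have h2 : ∀ᵐ z : ℂ, z ∈ U := by
    rw [ae_iff]
    exact hUc
  filter_upwards [h1, h2] with z h3 h4 using h3 h4

/-- `L(a + z)` has a null set of zeros -/
theorem ae_L_ne {m : ℕ} (π : LData m) (h : ∃ s, π.L s ≠ 0) (a : ℂ) :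
    ∀ᵐ z : ℂ, π.L (a + z) ≠ 0 := by
  rcases π.regular with ⟨hd, -⟩ | ⟨-, -, -, hz⟩
  · obtain ⟨s, hs⟩ := h
    refine ae_ne_zero_of_an (f := fun z => π.L (a + z)) (U := univ) MeasurableSet.univ (by simp)
      ?_ isConnected_univ (s := s - a) (mem_univ _) ?_
    · have h1 : Differentiable ℂ (fun z => π.L (a + z)) :=
        hd.comp ((differentiable_const a).add differentiable_id)
      exact h1.differentiableOn.analyticOnNhd isOpen_univ
    · simpa using hs
  · rw [hz]
    have h1 : IsConnected ({1 - a}ᶜ : Set ℂ) := by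
      refine isConnected_compl_singleton_of_one_lt_rank ?_ _
      rw [Complex.rank_real_complex]
      exact Cardinal.one_lt_two
    refine ae_ne_zero_of_an (f := fun z => riemannZeta (a + z)) (U := {1 - a}ᶜ)
      (measurableSet_singleton _).compl (by simp) ?_ h1 (s := 2 - a) ?_ ?_
    · have h2 : DifferentiableOn ℂ (fun z => riemannZeta (a + z)) {1 - a}ᶜ := by
        intro z hz'
        have h3 : a + z ≠ 1 := by
          intro h4
          apply hz'
          rw [mem_singleton_iff, ← h4]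
          ring
        exact ((differentiableAt_riemannZeta h3).comp z
          ((differentiableAt_const a).add differentiableAt_id)).differentiableWithinAt
      exact h2.analyticOnNhd isOpen_compl_singleton
    · rw [mem_compl_iff, mem_singleton_iff]
      intro h3
      have h4 : (2 : ℂ) = 1 := by linear_combination h3
      norm_num at h4
    · show riemannZeta (a + (2 - a)) ≠ 0
      rw [add_sub_cancel]
      exact riemannZeta_ne_zero_of_one_le_re (by norm_num)

theorem ae_re_ne : ∀ᵐ z : ℂ, z.re ≠ 0 := by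
  have h1 : volume ((LinearMap.ker Complex.reLm : Submodule ℝ ℂ) : Set ℂ) = 0 := by
    refine Measure.addHaar_submodule volume _ fun h => ?_
    have h2 : (1 : ℂ) ∈ LinearMap.ker Complex.reLm := by
      rw [h]
      exact Submodule.mem_top
    simp at h2
  rw [ae_iff]
  refine measure_mono_null (fun z hz => ?_) h1
  simpa using hz

/-- the quotient is different from zero almost everywhere -/
theorem ae_ratio_ne (μ : ℂ) (hμ : μ.re < 1 / 2) (t : ℝ) :
    ∀ᵐ z : ℂ, 0 < z.re → ratio (1 / 2 + (t + z.im : ℝ) * I - μ) z.re ≠ 0 := by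
  have hc : (range fun n : ℕ => (starRingEnd ℂ) (1 / 2 + t * I - μ + 2 * n)).Countable :=
    countable_range _
  have h1 : ∀ᵐ z : ℂ, z ∉ range fun n : ℕ => (starRingEnd ℂ) (1 / 2 + t * I - μ + 2 * n) := by
    rw [ae_iff]
    simp only [not_not]
    exact hc.measure_zero volume
  filter_upwards [h1] with z hz hre
  unfold ratio
  refine mul_ne_zero (Gammaℝ_ne_zero_of_re_pos ?_) (inv_ne_zero ?_)
  · simp
    linarith
  · intro h0
    obtain ⟨n, hn⟩ := Gammaℝ_eq_zero_iff.1 h0
    apply hz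
    refine ⟨n, ?_⟩
    have h2 : (1 / 2 + t * I - μ + 2 * n : ℂ) = (starRingEnd ℂ) z := by
      have h3 : (starRingEnd ℂ) z = z.re - z.im * I := by
        apply Complex.ext <;> simp
      rw [h3]
      push_cast at hn
      linear_combination hn
    show (starRingEnd ℂ) (1 / 2 + t * I - μ + 2 * n : ℂ) = z
    rw [h2, conj_conj]

theorem measurable_ratio (μ : ℂ) (t : ℝ) :
    Measurable fun z : ℂ => ratio (1 / 2 + (t + z.im : ℝ) * I - μ) z.re := by
  have h1 : Measurable fun s : ℂ => (Gammaℝ s)⁻¹ := differentiable_Gammaℝ_inv.continuous.measurable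
  have h2 : Measurable fun s : ℂ => Gammaℝ s := by
    have h3 : (fun s : ℂ => Gammaℝ s) = fun s => ((Gammaℝ s)⁻¹)⁻¹ := by
      funext s
      rw [inv_inv]
    rw [h3]
    exact measurable_inv.comp h1
  unfold ratio
  refine (h2.comp ?_).mul (h1.comp ?_)
  · have : Continuous fun z : ℂ => (1 / 2 + (t + z.im : ℝ) * I - μ : ℂ) + (z.re : ℂ) := by fun_prop
    exact this.measurable
  · have : Continuous fun z : ℂ => (1 / 2 + (t + z.im : ℝ) * I - μ : ℂ) - (z.re : ℂ) := by fun_prop
    exact this.measurable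

theorem pf_feu (hRAT : T_RAT) : T_FEU := by
  intro m R hR
  obtain ⟨C, hC⟩ := hRAT R hR
  refine ⟨m * C, fun π t hL => ?_⟩
  have hHD : MeasurableSet (HD R) := by
    unfold HD
    exact isClosed_closedBall.measurableSet.inter (measurableSet_le measurable_const measurable_re)
  have key : ∀ᵐ z ∂(volume.restrict (HD R)),
      ‖Real.log ‖π.L (1 / 2 + t * I + -(starRingEnd ℂ) z)‖ -
        Real.log ‖π.L (1 / 2 + t * I + z)‖ - z.re * Real.log (π.Q t)‖ₑ ≤
      ∑ j, ‖Real.log ‖ratio (1 / 2 + (t + z.im : ℝ) * I - π.μ j) z.re‖ -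
        z.re * Real.log (1 + ‖t * I - π.μ j‖)‖ₑ := by
    have h1 := ae_L_ne π hL (1 / 2 + t * I)
    have h2 : ∀ᵐ z : ℂ, ∀ j, 0 < z.re → ratio (1 / 2 + (t + z.im : ℝ) * I - π.μ j) z.re ≠ 0 :=
      ae_all_iff.2 fun j => ae_ratio_ne (π.μ j) (π.re_μ_lt j) t
    have h3 : ∀ᵐ z : ℂ, z ≠ (1 / 2 - t * I : ℂ) := by
      rw [ae_iff]
      simp only [not_not]
      have : {z : ℂ | z = 1 / 2 - t * I} = {(1 / 2 - t * I : ℂ)} := rfl
      rw [this]
      exact measure_singleton _
    filter_upwards [ae_restrict_of_ae h1, ae_restrict_of_ae h2, ae_restrict_of_ae h3,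
      ae_restrict_of_ae ae_re_ne, ae_restrict_mem hHD] with z hz1 hz2 hz3 hz4 hz5
    have hx : 0 < z.re := lt_of_le_of_ne hz5.2 (Ne.symm hz4)
    have hcase : z.re ≠ 1 / 2 ∨ t + z.im ≠ 0 := by
      by_contra hcon
      rw [not_or, not_not, not_not] at hcon
      apply hz3
      apply Complex.ext
      · simp [hcon.1]
      · simp
        linarith [hcon.2]
    have hfe := Pool.Agent.H51.DZ.normFE m π z.re (t + z.im) hx hcase
    have e1 : (1 / 2 - z.re + ((t + z.im : ℝ) : ℂ) * I : ℂ) =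
        1 / 2 + t * I + -(starRingEnd ℂ) z := by
      have h4 : (starRingEnd ℂ) z = z.re - z.im * I := by
        apply Complex.ext <;> simp
      rw [h4]
      push_cast
      ring
    have e2 : (1 / 2 + z.re + ((t + z.im : ℝ) : ℂ) * I : ℂ) = 1 / 2 + t * I + z := by
      conv_rhs => rw [← Complex.re_add_im z]
      push_cast
      ring
    rw [e1, e2] at hfe
    have hN : (0 : ℝ) < π.N := by
      exact_mod_cast Nat.pos_of_ne_zero π.N_ne
    have hr : ∀ j, ‖ratio (1 / 2 + ((t + z.im : ℝ) : ℂ) * I - π.μ j) z.re‖ ≠ 0 := fun j =>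
      norm_ne_zero_iff.2 (hz2 j hx)
    have hlog : Real.log ‖π.L (1 / 2 + t * I + -(starRingEnd ℂ) z)‖ = z.re * Real.log π.N +
        ∑ j, Real.log ‖ratio (1 / 2 + ((t + z.im : ℝ) : ℂ) * I - π.μ j) z.re‖ +
        Real.log ‖π.L (1 / 2 + t * I + z)‖ := by
      rw [hfe, Real.log_mul (mul_ne_zero (Real.rpow_pos_of_pos hN _).ne'
        (Finset.prod_ne_zero_iff.2 fun j _ => hr j)) (norm_ne_zero_iff.2 hz1),
        Real.log_mul (Real.rpow_pos_of_pos hN _).ne' (Finset.prod_ne_zero_iff.2 fun j _ => hr j),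
        Real.log_rpow hN, Real.log_prod fun j _ => hr j]
    have hQ : Real.log (π.Q t) = Real.log π.N + ∑ j, Real.log (1 + ‖t * I - π.μ j‖) := by
      unfold LData.Q
      rw [Real.log_mul hN.ne' (Finset.prod_ne_zero_iff.2 fun j _ => by positivity),
        Real.log_prod fun j _ => by positivity]
    have hsum : Real.log ‖π.L (1 / 2 + t * I + -(starRingEnd ℂ) z)‖ -
        Real.log ‖π.L (1 / 2 + t * I + z)‖ - z.re * Real.log (π.Q t) =
        ∑ j, (Real.log ‖ratio (1 / 2 + ((t + z.im : ℝ) : ℂ) * I - π.μ j) z.re‖ -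
          z.re * Real.log (1 + ‖t * I - π.μ j‖)) := by
      rw [hlog, hQ, Finset.sum_sub_distrib, ← Finset.mul_sum]
      ring
    rw [hsum]
    exact enorm_sum_le _ _
  refine (lintegral_mono_ae key).trans ?_
  rw [lintegral_finsetSum _ fun j _ => ?_]
  · calc ∑ j, ∫⁻ z in HD R, ‖Real.log ‖ratio (1 / 2 + (t + z.im : ℝ) * I - π.μ j) z.re‖ -
        z.re * Real.log (1 + ‖t * I - π.μ j‖)‖ₑ ≤ ∑ j : Fin m, ENNReal.ofReal C :=
          Finset.sum_le_sum fun j _ => hC (π.μ j) t (π.re_μ_lt j)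
      _ = ENNReal.ofReal (m * C) := by
          rw [Finset.sum_const, Finset.card_univ, Fintype.card_fin, nsmul_eq_mul,
            ENNReal.ofReal_mul (Nat.cast_nonneg m), ENNReal.ofReal_natCast]
  · have h1 := measurable_ratio (π.μ j) t
    exact ((Real.measurable_log.comp h1.norm).sub
      (measurable_re.mul_const _)).enorm

end Pool.Agent.H91.LIM
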